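import Pool.Agent.H74.TF.Stm

/-!
# Project TF, part COM: Jucys-Murphy elements commute
-/

set_option autoImplicit false

namespace Pool.Agent.H68.TF

open Finset Equiv Pool.Agent.H74.TF

theorem comm_JM {R α U : Type} [CommRing R] [Fintype α] [DecidableEq α] [AddCommGroup U]
    [Module R U] (ρ : Representation R (Perm α) U) (rk : α → ℕ) (x : α) (g : Perm α)
    (hg : ∀ y, rk y < rk x → rk (g y) < rk x) (hx : g x = x) : Commute (ρ g) (JM ρ rk x) := by
  have hmap : (univ.filter fun y => rk y < rk x).map g.toEmbedding =
      univ.filter fun y => rk y < rk x := by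
    apply Finset.eq_of_subset_of_card_le
    · intro y hy
      rw [Finset.mem_map] at hy
      obtain ⟨z, hz, rfl⟩ := hy
      rw [Finset.mem_filter] at hz ⊢
      exact ⟨Finset.mem_univ _, hg z hz.2⟩
    · rw [Finset.card_map]
  unfold JM Commute SemiconjBy
  conv_rhs => rw [← hmap]
  rw [Finset.sum_map, Finset.mul_sum, Finset.sum_mul]
  refine Finset.sum_congr rfl fun y _ => ?_
  rw [← map_mul, ← map_mul]
  congr 1
  ext z
  simp only [Perm.coe_mul, Function.comp_apply, Equiv.toEmbedding_apply]
  have h := Equiv.swap_apply_apply g y x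
  rw [hx] at h
  rw [h]
  simp

theorem comm_JM_JM {R α U : Type} [CommRing R] [Fintype α] [DecidableEq α] [AddCommGroup U]
    [Module R U] (ρ : Representation R (Perm α) U) (rk : α → ℕ) :
    ∀ x y, rk x < rk y → Commute (JM ρ rk x) (JM ρ rk y) := by
  intro x y hxy
  conv_lhs => unfold JM
  apply Commute.sum_left
  intro z hz
  rw [Finset.mem_filter] at hz
  apply comm_JM
  · intro w hw
    by_cases h1 : w = z
    · rw [h1, Equiv.swap_apply_left]; exact hxy
    · by_cases h2 : w = x
      · rw [h2, Equiv.swap_apply_right]; omega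
      · rw [Equiv.swap_apply_of_ne_of_ne h1 h2]; exact hw
  · apply Equiv.swap_apply_of_ne_of_ne
    · intro h; rw [h] at hxy; omega
    · intro h; rw [h] at hxy; omega

theorem t_COM : C_COM := by
  intro R α U _ _ _ _ _ ρ rk hrk
  have hC : ∀ x y, Commute (JM ρ rk x) (JM ρ rk y) := by
    intro x y
    rcases lt_trichotomy (rk x) (rk y) with h | h | h
    · exact comm_JM_JM ρ rk x y h
    · rw [hrk h]
    · exact (comm_JM_JM ρ rk y x h).symm
  refine ⟨hC, fun x g hg hx => comm_JM ρ rk x g hg hx, ?_⟩
  intro x x' hxx hn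
  have hne : x ≠ x' := by intro h; rw [h] at hxx; omega
  set s : Module.End R U := ρ (swap x x') with hs
  have hss : s * s = 1 := by
    rw [hs, ← map_mul, Equiv.swap_mul_self, map_one]
  have hset : (univ.filter fun y => rk y < rk x') = insert x (univ.filter fun y => rk y < rk x) := by
    ext y
    simp only [Finset.mem_filter, Finset.mem_univ, true_and, Finset.mem_insert]
    constructor
    · intro h
      rcases hn y with h1 | h1 | h1 | h1
      · exact Or.inr h1
      · omega
      · exact Or.inl h1
      · rw [h1] at h; omega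
    · rintro (h | h)
      · rw [h]; exact hxx
      · omega
  have hJ' : JM ρ rk x' = s + ∑ y : α with rk y < rk x, ρ (swap y x') := by
    unfold JM
    rw [hset, Finset.sum_insert (by simp)]
  have h1 : s * JM ρ rk x = JM ρ rk x' * s - 1 := by
    rw [hJ', add_mul, hss]
    unfold JM
    rw [Finset.mul_sum, Finset.sum_mul, add_sub_cancel_left]
    refine Finset.sum_congr rfl fun y hy => ?_
    rw [Finset.mem_filter] at hy
    have hyx : y ≠ x := by intro h; rw [h] at hy; omega
    have hyx' : y ≠ x' := by intro h; rw [h] at hy; omega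
    rw [hs, ← map_mul, ← map_mul]
    congr 1
    have h := Equiv.swap_apply_apply (swap x x') y x
    rw [Equiv.swap_apply_of_ne_of_ne hyx hyx', Equiv.swap_apply_left] at h
    rw [h]
    simp [mul_assoc]
  have h2 : JM ρ rk x * s = s * JM ρ rk x' - 1 := by
    have h3 : s * (s * JM ρ rk x) * s = s * (JM ρ rk x' * s - 1) * s := by rw [h1]
    rw [← mul_assoc, hss, one_mul, mul_sub, sub_mul, mul_one, hss] at h3
    rw [h3, mul_assoc, mul_assoc, hss, mul_one]
  refine ⟨h1, ?_, ?_, ?_⟩
  · show s * _ = _ * s
    rw [mul_add, add_mul, h1, h2]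
    abel
  · show s * _ = _ * s
    rw [← mul_assoc, h1, sub_mul, one_mul, mul_assoc]
    have h3 : s * JM ρ rk x' = JM ρ rk x * s + 1 := by rw [h2]; abel
    rw [h3, mul_add, mul_one, add_sub_cancel_right, ← mul_assoc, (hC x' x).eq]
  · intro y hy hy'
    apply comm_JM
    · intro w hw
      by_cases e1 : w = x
      · rw [e1] at hw ⊢
        rw [Equiv.swap_apply_left]
        rcases hn y with h | h | h | h
        · omega
        · exact h
        · exact absurd h hy
        · exact absurd h hy'
      · by_cases e2 : w = x'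
        · rw [e2] at hw ⊢
          rw [Equiv.swap_apply_right]; omega
        · rw [Equiv.swap_apply_of_ne_of_ne e1 e2]; exact hw
    · exact Equiv.swap_apply_of_ne_of_ne hy hy'

end Pool.Agent.H68.TF
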