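import Pool.Agent.H74.TF.Stm

/-!
# Project TF, part JUC: the theorem of Jucys on class sums
-/

set_option autoImplicit false

namespace Pool.Agent.H68.TF

open Finset Equiv Pool.Agent.H74.TF MvPolynomial

section Cyc

variable {α : Type} [Fintype α] [DecidableEq α]

theorem cyc_eq (g : Perm α) :
    cyc g + g.support.card = Multiset.card g.cycleType + Fintype.card α := by
  unfold cyc
  rw [Perm.parts_partition, Multiset.card_add, Multiset.card_replicate]
  have := Finset.card_le_univ g.support
  omega

theorem cyc_one : cyc (1 : Perm α) = Fintype.card α := by
  have := cyc_eq (1 : Perm α)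
  simpa using this

theorem eq_one_of_cyc (g : Perm α) (h : cyc g = Fintype.card α) : g = 1 := by
  have h1 := cyc_eq g
  rw [h] at h1
  have h2 : g.support.card = Multiset.card g.cycleType := by omega
  rw [← Perm.sum_cycleType] at h2
  have h3 : 2 * Multiset.card g.cycleType ≤ g.cycleType.sum := by
    have := Multiset.card_nsmul_le_sum (s := g.cycleType) (a := 2)
      (fun x hx => Perm.two_le_of_mem_cycleType hx)
    simpa [mul_comm] using this
  have h4 : Multiset.card g.cycleType = 0 := by omega
  rw [Multiset.card_eq_zero] at h4
  exact Perm.cycleType_eq_zero.mp h4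

theorem cyc_swap_mul (g : Perm α) (z y : α) (hz : g z = z) (hyz : y ≠ z) :
    cyc (swap y z * g) + 1 = cyc g := by
  have hzs : z ∉ g.support := by rw [Perm.notMem_support]; exact hz
  by_cases hy : g y = y
  · -- a new cycle of length two
    have hys : y ∉ g.support := by rw [Perm.notMem_support]; exact hy
    have hd : Perm.Disjoint (swap y z) g := by
      rw [Perm.disjoint_iff_disjoint_support, Perm.support_swap hyz, Finset.disjoint_left]
      intro a ha
      simp only [Finset.mem_insert, Finset.mem_singleton] at ha
      rcases ha with ha | ha
      · rw [ha]; exact hys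
      · rw [ha]; exact hzs
    have h1 := cyc_eq (swap y z * g)
    rw [hd.cycleType_mul, hd.card_support_mul, Perm.support_swap hyz,
      Perm.IsCycle.cycleType (Perm.isCycle_swap hyz), Multiset.card_add] at h1
    have h2 := cyc_eq g
    rw [Finset.card_pair hyz] at h1
    simp only [Multiset.card_singleton] at h1
    omega
  · -- extension of the cycle of `y`
    have hys : y ∈ g.support := by rw [Perm.mem_support]; exact hy
    set c := g.cycleOf y with hc
    have hcm : c ∈ g.cycleFactorsFinset := Perm.cycleOf_mem_cycleFactorsFinset_iff.mpr hys
    have hdis : Perm.Disjoint (g * c⁻¹) c := Perm.disjoint_mul_inv_of_mem_cycleFactorsFinset hcm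
    have hlen := Perm.two_le_length_toList_iff_mem_support.mpr hys
    obtain ⟨l, hl⟩ : ∃ l, Perm.toList g y = y :: l := by
      have h0 := Perm.toList_getElem_zero g y hys
      cases hL : Perm.toList g y with
      | nil => rw [hL] at hlen; simp at hlen
      | cons a l =>
        refine ⟨l, ?_⟩
        simp only [hL, List.getElem_cons_zero] at h0
        rw [h0]
    have hform : List.formPerm (y :: l) = c := by rw [← hl]; exact Perm.formPerm_toList g y
    have hnd : (y :: l).Nodup := by rw [← hl]; exact Perm.nodup_toList g y
    have hzl : z ∉ y :: l := by
      rw [← hl]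
      intro hmem
      rw [Perm.mem_toList_iff] at hmem
      have := hmem.1.mem_support_iff (f := g)
      exact hzs (this.mp hys)
    have hnd' : (z :: y :: l).Nodup := List.nodup_cons.mpr ⟨hzl, hnd⟩
    have hform' : List.formPerm (z :: y :: l) = swap z y * c := by
      rw [List.formPerm_cons_cons, hform]
    have hlen' : 2 ≤ (y :: l).length := by rw [← hl]; exact hlen
    have hcyc' : Perm.IsCycle (swap z y * c) := by
      rw [← hform']
      exact List.isCycle_formPerm hnd' (by simp)
    have hsupp' : (swap z y * c).support = (z :: y :: l).toFinset := by
      rw [← hform']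
      apply List.support_formPerm_of_nodup _ hnd'
      intro x hx
      simp at hx
    have hsupp : c.support = (y :: l).toFinset := by
      rw [← hform]
      apply List.support_formPerm_of_nodup _ hnd
      intro x hx
      rw [hx] at hlen'
      simp at hlen'
    have hcard' : (swap z y * c).support.card = c.support.card + 1 := by
      rw [hsupp', hsupp, List.toFinset_card_of_nodup hnd', List.toFinset_card_of_nodup hnd,
        List.length_cons]
    have hcc : Perm.IsCycle c := Perm.isCycle_cycleOf g hy
    have hdis' : Perm.Disjoint (swap z y * c) (g * c⁻¹) := by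
      rw [Perm.disjoint_iff_disjoint_support, Finset.disjoint_left]
      intro a ha
      rw [hsupp', List.toFinset_cons, Finset.mem_insert, ← hsupp] at ha
      rcases ha with ha | ha
      · rw [ha, Perm.notMem_support, Perm.mul_apply]
        have hcz : c⁻¹ z = z := by
          rw [Perm.inv_eq_iff_eq]
          have : z ∉ c.support := by
            rw [hsupp, List.mem_toFinset]; exact hzl
          exact (Perm.notMem_support.mp this).symm
        rw [hcz, hz]
      · exact Finset.disjoint_left.mp (Perm.disjoint_iff_disjoint_support.mp hdis.symm) ha
    have hprod : swap y z * g = (swap z y * c) * (g * c⁻¹) := by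
      have : c * (g * c⁻¹) = (g * c⁻¹) * c := hdis.symm.commute.eq
      rw [mul_assoc, this, inv_mul_cancel_right, swap_comm]
    have hg : g = c * (g * c⁻¹) := by
      have : c * (g * c⁻¹) = (g * c⁻¹) * c := hdis.symm.commute.eq
      rw [this, inv_mul_cancel_right]
    have h1 := cyc_eq (swap y z * g)
    rw [hprod, hdis'.cycleType_mul, hdis'.card_support_mul, hcyc'.cycleType, Multiset.card_add,
      hcard'] at h1
    have h2 := cyc_eq g
    have h3 : g.cycleType = c.cycleType + (g * c⁻¹).cycleType := by
      conv_lhs => rw [hg]
      exact hdis.symm.cycleType_mul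
    have h4 : g.support.card = c.support.card + (g * c⁻¹).support.card := by
      conv_lhs => rw [hg]
      exact hdis.symm.card_support_mul
    rw [h3, h4, hcc.cycleType, Multiset.card_add] at h2
    rw [hprod]
    simp only [Multiset.card_singleton] at h1 h2
    omega

end Cyc

/-- elementary symmetric polynomials in the variables of `s` -/
noncomputable def esy {α : Type} (R : Type) [CommRing R] (s : Finset α) (j : ℕ) :
    MvPolynomial α R :=
  (s.val.map fun x => (X x : MvPolynomial α R)).esymm j

theorem esy_zero {α R : Type} [CommRing R] (s : Finset α) : esy R s 0 = 1 := by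
  simp [esy, Multiset.esymm]

theorem esy_insert {α R : Type} [CommRing R] [DecidableEq α] (s : Finset α) (a : α) (ha : a ∉ s)
    (j : ℕ) : esy R (insert a s) (j + 1) = esy R s (j + 1) + X a * esy R s j := by
  unfold esy
  rw [Finset.insert_val_of_notMem ha, Multiset.map_cons]
  simp only [Multiset.esymm, Multiset.powersetCard_cons, Multiset.map_add, Multiset.sum_add,
    Multiset.map_map, Function.comp_def, Multiset.prod_cons, Multiset.sum_map_mul_left]

theorem esy_empty {α R : Type} [CommRing R] (j : ℕ) : esy R (∅ : Finset α) (j + 1) = 0 := by
  simp [esy, Multiset.esymm, Multiset.powersetCard_zero_right]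

theorem juc_aux {R α U : Type} [CommRing R] [Fintype α] [DecidableEq α] [AddCommGroup U]
    [Module R U] (ρ : Representation R (Perm α) U) (rk : α → ℕ)
    (ev : MvPolynomial α R →ₐ[R] Module.End R U) (hrk : Function.Injective rk)
    (hev : ∀ x, ev (X x) = JM ρ rk x) (s : Finset α) :
    (∀ x ∈ s, ∀ y, rk y < rk x → y ∈ s) →
    ∀ j, ∑ g : Perm α with (∀ x, x ∉ s → g x = x) ∧ cyc g + j = Fintype.card α, ρ g =
      ev (esy R s j) := by
  have hzero : ∀ (s : Finset α), ∑ g : Perm α with
      (∀ x, x ∉ s → g x = x) ∧ cyc g + 0 = Fintype.card α, ρ g = ev (esy R s 0) := by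
    intro s
    rw [esy_zero, map_one]
    have : (univ.filter fun g : Perm α => (∀ x, x ∉ s → g x = x) ∧ cyc g + 0 = Fintype.card α) =
        {1} := by
      ext g
      simp only [Finset.mem_filter, Finset.mem_univ, true_and, Finset.mem_singleton, add_zero]
      constructor
      · intro h; exact eq_one_of_cyc g h.2
      · rintro rfl
        exact ⟨fun x _ => rfl, cyc_one⟩
    rw [this, Finset.sum_singleton, map_one]
  refine Finset.induction_on_max_value rk s ?_ ?_
  · intro _ j
    cases j with
    | zero => exact hzero ∅
    | succ j =>
      rw [esy_empty, map_zero]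
      apply Finset.sum_eq_zero
      intro g hg
      exfalso
      rw [Finset.mem_filter] at hg
      have h1 : g = 1 := by
        ext x
        exact hg.2.1 x (Finset.notMem_empty x)
      rw [h1, cyc_one] at hg
      omega
  · intro a s ha hmax ih hdown j
    have hrlt : ∀ x ∈ s, rk x < rk a := by
      intro x hx
      rcases lt_or_eq_of_le (hmax x hx) with h | h
      · exact h
      · exact absurd (hrk h ▸ hx) ha
    have hdown' : ∀ x ∈ s, ∀ y, rk y < rk x → y ∈ s := by
      intro x hx y hy
      have := hdown x (Finset.mem_insert_of_mem hx) y hy
      rw [Finset.mem_insert] at this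
      rcases this with h | h
      · exfalso
        have := hmax x hx
        rw [h] at hy
        omega
      · exact h
    have hset : (univ.filter fun y => rk y < rk a) = s := by
      ext y
      simp only [Finset.mem_filter, Finset.mem_univ, true_and]
      constructor
      · intro hy
        have := hdown a (Finset.mem_insert_self a s) y hy
        rw [Finset.mem_insert] at this
        rcases this with h | h
        · rw [h] at hy; omega
        · exact h
      · exact hrlt y
    have hJ : JM ρ rk a = ∑ y ∈ s, ρ (swap y a) := by
      unfold JM; rw [hset]
    cases j with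
    | zero => exact hzero _
    | succ j =>
      rw [esy_insert s a ha, map_add, map_mul, hev, hJ, ← ih hdown' (j + 1), ← ih hdown' j]
      rw [← Finset.sum_filter_add_sum_filter_not
        (univ.filter fun g : Perm α => (∀ x, x ∉ insert a s → g x = x) ∧
          cyc g + (j + 1) = Fintype.card α) (fun g => g a = a)]
      congr 1
      · apply Finset.sum_congr _ fun _ _ => rfl
        ext g
        simp only [Finset.mem_filter, Finset.mem_univ, true_and, Finset.mem_insert, not_or,
          and_imp]
        constructor
        · rintro ⟨⟨h1, h2⟩, h3⟩
          refine ⟨fun x hx => ?_, h2⟩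
          by_cases hxa : x = a
          · rw [hxa]; exact h3
          · exact h1 x hxa hx
        · rintro ⟨h1, h2⟩
          exact ⟨⟨fun x _ hx => h1 x hx, h2⟩, h1 a ha⟩
      · rw [Finset.sum_mul_sum, ← Finset.sum_product']
        symm
        refine Finset.sum_nbij' (fun p => swap p.1 a * p.2) (fun g => (g a, swap (g a) a * g))
          ?_ ?_ ?_ ?_ ?_
        · rintro ⟨y, g⟩ hp
          simp only [Finset.mem_product, Finset.mem_filter, Finset.mem_univ, true_and] at hp
          obtain ⟨hy, hg, hc⟩ := hp
          have hya : y ≠ a := by intro h; exact ha (h ▸ hy)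
          have hga : g a = a := hg a ha
          simp only [Finset.mem_filter, Finset.mem_univ, true_and]
          refine ⟨⟨fun x hx => ?_, ?_⟩, ?_⟩
          · rw [Finset.mem_insert, not_or] at hx
            rw [Perm.mul_apply, hg x hx.2, swap_apply_of_ne_of_ne]
            · intro h; exact hx.2 (h ▸ hy)
            · exact hx.1
          · have := cyc_swap_mul g a y hga hya
            omega
          · rw [Perm.mul_apply, hga, swap_apply_right]; exact hya
        · intro g hg
          simp only [Finset.mem_filter, Finset.mem_univ, true_and] at hg
          obtain ⟨⟨h1, h2⟩, h3⟩ := hg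
          have hmem : g a ∈ s := by
            by_contra hcon
            have h4 : g (g a) = g a := by
              apply h1
              rw [Finset.mem_insert, not_or]
              exact ⟨h3, hcon⟩
            exact h3 (g.injective h4)
          have hfix : (swap (g a) a * g) a = a := by
            rw [Perm.mul_apply, swap_apply_left]
          simp only [Finset.mem_product, Finset.mem_filter, Finset.mem_univ, true_and]
          refine ⟨hmem, fun x hx => ?_, ?_⟩
          · by_cases hxa : x = a
            · rw [hxa]; exact hfix
            · have h5 : g x = x := h1 x (by rw [Finset.mem_insert, not_or]; exact ⟨hxa, hx⟩)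
              rw [Perm.mul_apply, h5, swap_apply_of_ne_of_ne]
              · intro h; exact hx (h ▸ hmem)
              · exact hxa
          · have h6 := cyc_swap_mul (swap (g a) a * g) a (g a) hfix h3
            rw [← mul_assoc, swap_mul_self, one_mul] at h6
            omega
        · rintro ⟨y, g⟩ hp
          simp only [Finset.mem_product, Finset.mem_filter, Finset.mem_univ, true_and] at hp
          obtain ⟨hy, hg, hc⟩ := hp
          have hga : g a = a := hg a ha
          simp only [Perm.mul_apply, hga, swap_apply_right]
          rw [← mul_assoc, swap_mul_self, one_mul]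
        · intro g _
          simp only
          rw [← mul_assoc, swap_mul_self, one_mul]
        · rintro ⟨y, g⟩ _
          simp only
          rw [map_mul]

theorem t_JUC : C_JUC := by
  intro R α U _ _ _ _ _ ρ rk ev hrk hev j
  have h := juc_aux ρ rk ev hrk hev univ (fun _ _ _ _ => Finset.mem_univ _) j
  have h1 : esy R (univ : Finset α) j = esymm α R j := by
    unfold esy
    rw [Finset.esymm_map_val]
    rfl
  rw [h1] at h
  rw [← h]
  unfold csum
  apply Finset.sum_congr _ fun _ _ => rfl
  ext g
  simp

end Pool.Agent.H68.TF
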