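import Pool.Agent.H74.TF.Stm2

/-!
# Project TF, part LAM: the class sums on the row product of a filling
-/

set_option autoImplicit false

namespace Pool.Agent.H68.TF

open Finset Equiv Pool.Agent.H74.TF MvPolynomial

/-- lexicographic order of the cells -/
def LexLt {α : Type} (row col : α → ℕ) (x y : α) : Prop :=
  row x < row y ∨ row x = row y ∧ col x < col y

open Classical in
/-- the number of smaller cells -/
noncomputable def lrk {α : Type} [Fintype α] (row col : α → ℕ) (x : α) : ℕ :=
  (univ.filter fun y => LexLt row col y x).card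

theorem lrk_lt {α : Type} [Fintype α] (row col : α → ℕ) {x y : α} (h : LexLt row col x y) :
    lrk row col x < lrk row col y := by
  classical
  unfold lrk
  apply Finset.card_lt_card
  rw [Finset.ssubset_iff_of_subset]
  · refine ⟨x, ?_, ?_⟩
    · simp only [Finset.mem_filter, Finset.mem_univ, true_and]; exact h
    · simp only [Finset.mem_filter, Finset.mem_univ, true_and]
      unfold LexLt
      omega
  · intro z hz
    simp only [Finset.mem_filter, Finset.mem_univ, true_and] at hz ⊢
    unfold LexLt at *
    omega

theorem lrk_ord {α : Type} [Fintype α] (row col : α → ℕ)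
    (hinj : ∀ x y, row x = row y → col x = col y → x = y) (x y : α) :
    lrk row col x < lrk row col y ↔ row x < row y ∨ row x = row y ∧ col x < col y := by
  constructor
  · intro h
    by_contra hcon
    have h1 : LexLt row col y x ∨ (row x = row y ∧ col x = col y) := by
      unfold LexLt
      omega
    rcases h1 with h1 | h1
    · have := lrk_lt row col h1
      omega
    · rw [hinj x y h1.1 h1.2] at h
      omega
  · exact fun h => lrk_lt row col h

theorem fil_inj {m k : ℕ} (T : Fil m k) :
    ∀ x y, T.prow x = T.prow y → T.pcol x = T.pcol y → x = y := by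
  have hdom : ∀ i, T.dom i < T.ν (T.row i) := fun i => (T.full _ _).mp ⟨i, rfl, rfl⟩
  rintro (⟨i, b⟩ | s) (⟨i', b'⟩ | s') h1 h2
  · simp only [Fil.prow, Fil.pcol] at h1 h2
    have hb := Bool.toNat_lt b
    have hb' := Bool.toNat_lt b'
    have h3 : T.dom i = T.dom i' := by omega
    have h4 : b.toNat = b'.toNat := by omega
    have h5 : i = i' := by
      rcases lt_trichotomy i i' with l | l | l
      · rcases (T.lex i i').mp l with q | q <;> omega
      · exact l
      · rcases (T.lex i' i).mp l with q | q <;> omega
    have h6 : b = b' := by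
      cases b <;> cases b' <;> simp_all
    rw [h5, h6]
  · simp only [Fil.prow, Fil.pcol] at h1 h2
    have := hdom i
    have hb := Bool.toNat_lt b
    rw [h1] at this
    omega
  · simp only [Fil.prow, Fil.pcol] at h1 h2
    have := hdom i'
    have hb := Bool.toNat_lt b'
    rw [← h1] at this
    omega
  · simp only [Fil.prow] at h1
    rw [T.qmono.injective h1]

open Classical in
theorem fil_rowR {m k : ℕ} (T : Fil m k) : RowR T.prow T.pcol (lrk T.prow T.pcol) where
  inj := fil_inj T
  ord := lrk_ord _ _ (fil_inj T)
  down := by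
    set len : ℕ → ℕ := fun r => 2 * T.ν r + (if ∃ s, T.qrow s = r then 1 else 0) with hlen
    have hanti : Antitone len := by
      apply antitone_nat_of_succ_le
      intro r
      have := T.anti r
      simp only [hlen]
      convert this
    have hcol : ∀ x, T.pcol x < len (T.prow x) := by
      rintro (⟨i, b⟩ | s)
      · simp only [Fil.prow, Fil.pcol, hlen]
        have h1 : T.dom i < T.ν (T.row i) := (T.full _ _).mp ⟨i, rfl, rfl⟩
        have hb := Bool.toNat_lt b
        omega
      · simp only [Fil.prow, Fil.pcol, hlen]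
        rw [if_pos ⟨s, rfl⟩]
        omega
    intro x r c hr hc
    have h1 : c < len r := lt_of_le_of_lt hc (lt_of_lt_of_le (hcol x) (hanti hr))
    by_cases h2 : c < 2 * T.ν r
    · obtain ⟨i, hi1, hi2⟩ := (T.full r (c / 2)).mpr (by omega)
      by_cases h3 : c % 2 = 0
      · refine ⟨Sum.inl (i, false), hi1, ?_⟩
        simp only [Fil.pcol, hi2, Bool.toNat_false]
        omega
      · refine ⟨Sum.inl (i, true), hi1, ?_⟩
        simp only [Fil.pcol, hi2, Bool.toNat_true]
        omega
    · have h3 : ∃ s, T.qrow s = r := by
        by_contra hcon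
        simp only [hlen, if_neg hcon] at h1
        omega
      obtain ⟨s, hs⟩ := h3
      refine ⟨Sum.inr s, hs, ?_⟩
      simp only [hlen] at h1
      rw [if_pos ⟨s, hs⟩] at h1
      simp only [Fil.pcol, hs]
      omega

/-- General form: the class sums act on the row product by the elementary symmetric polynomials of
the contents. -/
theorem csum_Dlt (h1 : C_EV) (h2 : C_COM) (h3 : C_JUC) (h4 : C_GAR) {α : Type} [Fintype α]
    [DecidableEq α] (row col rk : α → ℕ) (hR : RowR row col rk) (j : ℕ) :
    csum (pol α) j (Dlt row col) =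
      (eval (fun x => ((col x : ℤ) : ℚ) - ((row x : ℤ) : ℚ)) (esymm α ℚ j)) • Dlt row col := by
  have hrk : Function.Injective rk := by
    intro x y hxy
    have e1 := hR.ord x y
    have e2 := hR.ord y x
    rw [hxy] at e1 e2
    simp only [lt_irrefl, false_iff, not_or, not_and, not_lt] at e1 e2
    have e3 : row x = row y := le_antisymm e2.1 e1.1
    exact hR.inj x y e3 (le_antisymm (e2.2 e3.symm) (e1.2 e3))
  obtain ⟨hC, _, _⟩ := h2 ℚ α (MvPolynomial α ℚ) (pol α) rk hrk
  obtain ⟨ev, hev⟩ := h1 ℚ (Module.End ℚ (MvPolynomial α ℚ)) α (fun x => JM (pol α) rk x) hC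
  rw [h3 ℚ α (MvPolynomial α ℚ) (pol α) rk ev hrk hev j]
  generalize esymm α ℚ j = f
  induction f using MvPolynomial.induction_on with
  | C a =>
    rw [eval_C]
    have : ev (C a) = algebraMap ℚ _ a := by
      rw [← MvPolynomial.algebraMap_eq]; exact ev.commutes a
    rw [this]
    rfl
  | add p q hp hq => rw [map_add, LinearMap.add_apply, hp, hq, map_add, add_smul]
  | mul_X p x hp =>
    rw [map_mul, hev, Module.End.mul_apply, h4 α row col rk hR x, map_zsmul, hp, map_mul, eval_X,
      ← Int.cast_smul_eq_zsmul ℚ, smul_smul]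
    push_cast
    rw [mul_comm]

theorem t_LAM (h1 : C_EV) (h2 : C_COM) (h3 : C_JUC) (h4 : C_GAR) : C_LAM := by
  intro m k T j
  exact csum_Dlt h1 h2 h3 h4 T.prow T.pcol _ (fil_rowR T) j

end Pool.Agent.H68.TF
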