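import Pool.Agent.H74.TF.Stm

/-!
# Project TF, part POS: the projection of the row product is not zero
-/

set_option autoImplicit false

namespace Pool.Agent.H68.TF

open Finset Equiv Pool.Agent.H74.TF MvPolynomial

theorem wr_struct {m : ℕ} (a : Perm (Fin m × Bool)) (ha : wr a) :
    ∃ (π : Perm (Fin m)) (σ : Fin m → Perm Bool), ∀ i b, a (i, b) = (π i, σ i b) := by
  have h2 : ∀ i, (a (i, false)).2 ≠ (a (i, true)).2 := by
    intro i h
    have : a (i, false) = a (i, true) := Prod.ext (ha i) h
    have := a.injective this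
    simp at this
  have hfst : ∀ i b, (a (i, b)).1 = (a (i, false)).1 := by
    intro i b
    cases b
    · rfl
    · exact (ha i).symm
  have hinj : Function.Injective fun i => (a (i, false)).1 := by
    intro i j hij
    simp only at hij
    by_cases h : (a (i, false)).2 = (a (j, false)).2
    · have := a.injective (Prod.ext hij h)
      simpa using this
    · have h3 : (a (i, true)).2 = (a (j, false)).2 := by
        have := h2 i
        revert this h
        cases (a (i, false)).2 <;> cases (a (i, true)).2 <;> cases (a (j, false)).2 <;> simp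
      have := a.injective (Prod.ext ((hfst i true).trans hij) h3)
      simp at this
  have hσ : ∀ i, Function.Injective fun b => (a (i, b)).2 := by
    intro i b b' hbb
    have := a.injective (Prod.ext ((hfst i b).trans (hfst i b').symm) hbb)
    simpa using this
  refine ⟨Equiv.ofBijective _ (Finite.injective_iff_bijective.mp hinj),
    fun i => Equiv.ofBijective _ (Finite.injective_iff_bijective.mp (hσ i)), ?_⟩
  intro i b
  exact Prod.ext (hfst i b) rfl

theorem sign_wr {m : ℕ} (a : Perm (Fin m × Bool)) (π : Perm (Fin m)) (σ : Fin m → Perm Bool)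
    (h : ∀ i b, a (i, b) = (π i, σ i b)) : Perm.sign a = ∏ i, Perm.sign (σ i) := by
  have : a = prodCongrLeft (fun _ : Bool => π) * prodCongrRight σ := by
    ext x : 1
    obtain ⟨i, b⟩ := x
    rw [h]
    rfl
  rw [this, map_mul, Perm.sign_prodCongrLeft, Perm.sign_prodCongrRight]
  simp

/-- the evaluation point -/
def EE {m : ℕ} (x : Fin m × Bool) : ℚ := 2 * ((x.1 : ℕ) : ℚ) + (x.2.toNat : ℚ)

theorem bool_sign (s : Perm Bool) :
    ((s true).toNat : ℚ) - ((s false).toNat : ℚ) = ((Perm.sign s : ℤˣ) : ℤ) := by
  have hs : s true ≠ s false := fun h => by simpa using s.injective h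
  rcases hb : s true with _ | _
  · have hf : s false = true := by
      rw [hb] at hs
      cases h : s false
      · exact absurd h.symm hs
      · rfl
    have : s = swap false true := by
      ext x; cases x
      · rw [hf]; rfl
      · rw [hb]; rfl
    rw [this, Perm.sign_swap (by decide)]
    simp
  · have hf : s false = false := by
      rw [hb] at hs
      cases h : s false
      · rfl
      · exact absurd h.symm hs
    have : s = 1 := by
      ext x; cases x
      · rw [hf]; rfl
      · rw [hb]; rfl
    rw [this]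
    simp

theorem prod_four_pos {m : ℕ} (a : Perm (Fin m × Bool)) (π : Perm (Fin m))
    (σ : Fin m → Perm Bool) (h : ∀ i b, a (i, b) = (π i, σ i b)) (i j : Fin m) (hij : i ≠ j) :
    0 < ∏ b : Bool, ∏ b' : Bool, (EE (a (j, b')) - EE (a (i, b))) := by
  have hπ : (π i : ℕ) ≠ (π j : ℕ) := fun e => hij (π.injective (Fin.ext e))
  simp only [h, EE]
  have e1 : ((σ i true).toNat : ℚ) = 1 ∧ ((σ i false).toNat : ℚ) = 0 ∨
      ((σ i true).toNat : ℚ) = 0 ∧ ((σ i false).toNat : ℚ) = 1 := by
    have hs : σ i true ≠ σ i false := fun h => by simpa using (σ i).injective h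
    revert hs
    cases σ i true <;> cases σ i false <;> simp
  have e2 : ((σ j true).toNat : ℚ) = 1 ∧ ((σ j false).toNat : ℚ) = 0 ∨
      ((σ j true).toNat : ℚ) = 0 ∧ ((σ j false).toNat : ℚ) = 1 := by
    have hs : σ j true ≠ σ j false := fun h => by simpa using (σ j).injective h
    revert hs
    cases σ j true <;> cases σ j false <;> simp
  set D : ℚ := ((π j : ℕ) : ℚ) - ((π i : ℕ) : ℚ) with hD
  have hD1 : 1 ≤ D ^ 2 := by
    have : (1 : ℤ) ≤ (((π j : ℕ) : ℤ) - ((π i : ℕ) : ℤ)) ^ 2 := by
      have h0 : ((π j : ℕ) : ℤ) - ((π i : ℕ) : ℤ) ≠ 0 := by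
        intro e
        exact hπ (by omega)
      have := Int.one_le_abs h0
      nlinarith [sq_abs (((π j : ℕ) : ℤ) - ((π i : ℕ) : ℤ))]
    have h3 : ((1 : ℤ) : ℚ) ≤ (((((π j : ℕ) : ℤ) - ((π i : ℕ) : ℤ)) ^ 2 : ℤ) : ℚ) := by
      exact_mod_cast this
    push_cast at h3
    exact h3
  have key : (0 : ℚ) < 4 * D ^ 2 * (4 * D ^ 2 - 1) := by nlinarith
  simp only [Fintype.prod_bool]
  rcases e1 with ⟨u1, u2⟩ | ⟨u1, u2⟩ <;> rcases e2 with ⟨w1, w2⟩ | ⟨w1, w2⟩ <;>
    rw [u1, u2, w1, w2] <;> refine lt_of_lt_of_eq key ?_ <;> rw [hD] <;> ring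

theorem term_pos {m k : ℕ} (T : Fil m k) (a : Perm (Fin m × Bool)) (ha : wr a) :
    0 < eval EE (pol (Fin m × Bool) a
      (Dlt (fun x => T.row x.1) (fun x => 2 * T.dom x.1 + x.2.toNat))) := by
  obtain ⟨π, σ, h⟩ := wr_struct a ha
  set K : Fin m → Fin m → ℚ := fun i j => ∏ b : Bool, ∏ b' : Bool,
    if T.row j = T.row i ∧ 2 * T.dom i + b.toNat < 2 * T.dom j + b'.toNat then
      EE (a (j, b')) - EE (a (i, b)) else 1 with hK
  have h1 : eval EE (pol (Fin m × Bool) a
      (Dlt (fun x => T.row x.1) (fun x => 2 * T.dom x.1 + x.2.toNat))) =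
      (((Perm.sign a : ℤˣ) : ℤ) : ℚ) * ∏ i, ∏ j, K i j := by
    have : pol (Fin m × Bool) a
        (Dlt (fun x => T.row x.1) (fun x => 2 * T.dom x.1 + x.2.toNat)) =
        ((Perm.sign a : ℤˣ) : ℤ) • rename a
          (Dlt (fun x : Fin m × Bool => T.row x.1) (fun x => 2 * T.dom x.1 + x.2.toNat)) := rfl
    rw [this, map_zsmul, eval_rename, zsmul_eq_mul]
    congr 1
    unfold Dlt
    rw [map_prod, Fintype.prod_prod_type]
    refine Finset.prod_congr rfl fun i _ => ?_
    rw [hK]
    simp only
    rw [Finset.prod_comm]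
    refine Finset.prod_congr rfl fun b _ => ?_
    rw [map_prod, Finset.prod_filter, Fintype.prod_prod_type]
    refine Finset.prod_congr rfl fun j _ => ?_
    refine Finset.prod_congr rfl fun b' _ => ?_
    simp only [map_sub, eval_X, Function.comp_apply]
  have hdiag : ∀ i, K i i = (((Perm.sign (σ i) : ℤˣ) : ℤ) : ℚ) := by
    intro i
    rw [hK, ← bool_sign]
    simp only [Fintype.prod_bool, true_and, h, EE]
    simp
  have hoff : ∀ i j, i ≠ j → 0 < K i j := by
    intro i j hij
    by_cases hr : T.row j = T.row i
    · by_cases hd : T.dom i < T.dom j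
      · have : K i j = ∏ b : Bool, ∏ b' : Bool, (EE (a (j, b')) - EE (a (i, b))) := by
          rw [hK]
          simp only
          refine Finset.prod_congr rfl fun b _ => ?_
          refine Finset.prod_congr rfl fun b' _ => ?_
          rw [if_pos]
          refine ⟨hr, ?_⟩
          have := Bool.toNat_lt b
          omega
        rw [this]
        exact prod_four_pos a π σ h i j hij
      · have : K i j = 1 := by
          rw [hK]
          simp only
          apply Finset.prod_eq_one
          intro b _
          apply Finset.prod_eq_one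
          intro b' _
          rw [if_neg]
          rintro ⟨_, h4⟩
          have h5 : T.dom i ≠ T.dom j := by
            intro e
            rcases lt_trichotomy i j with l | l | l
            · rcases (T.lex i j).mp l with q | q
              · omega
              · omega
            · exact hij l
            · rcases (T.lex j i).mp l with q | q
              · omega
              · omega
          have := Bool.toNat_lt b'
          omega
        rw [this]; exact one_pos
    · have : K i j = 1 := by
        rw [hK]
        simp only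
        apply Finset.prod_eq_one
        intro b _
        apply Finset.prod_eq_one
        intro b' _
        rw [if_neg]
        rintro ⟨h4, _⟩
        exact hr h4
      rw [this]; exact one_pos
  have h2 : ∏ i, ∏ j, K i j = (∏ i, K i i) * ∏ i, ∏ j ∈ univ.erase i, K i j := by
    rw [← Finset.prod_mul_distrib]
    refine Finset.prod_congr rfl fun i _ => ?_
    rw [Finset.mul_prod_erase _ _ (Finset.mem_univ i)]
  have h3 : (((Perm.sign a : ℤˣ) : ℤ) : ℚ) * ∏ i, K i i = 1 := by
    rw [sign_wr a π σ h]
    simp only [hdiag]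
    push_cast
    rw [← Finset.prod_mul_distrib]
    apply Finset.prod_eq_one
    intro i _
    have := Int.units_mul_self (Perm.sign (σ i))
    have h4 : (((Perm.sign (σ i) * Perm.sign (σ i) : ℤˣ) : ℤ) : ℚ) = 1 := by rw [this]; simp
    push_cast at h4
    exact h4
  rw [h1, h2, ← mul_assoc, h3, one_mul]
  apply Finset.prod_pos
  intro i _
  apply Finset.prod_pos
  intro j hj
  exact hoff i j (Finset.ne_of_mem_erase hj).symm

theorem t_POS : C_POS := by
  classical
  intro m k T h
  have h1 : 0 < eval EE (∑ a : Perm (Fin m × Bool) with wr a,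
      pol (Fin m × Bool) a (Dlt (fun x => T.row x.1) (fun x => 2 * T.dom x.1 + x.2.toNat))) := by
    rw [map_sum]
    apply Finset.sum_pos
    · intro a ha
      rw [Finset.mem_filter] at ha
      exact term_pos T a ha.2
    · refine ⟨1, ?_⟩
      rw [Finset.mem_filter]
      exact ⟨Finset.mem_univ _, fun i => rfl⟩
  have h2 : ∑ a : Perm (Fin m × Bool) with wr a,
      pol (Fin m × Bool) a (Dlt (fun x => T.row x.1) (fun x => 2 * T.dom x.1 + x.2.toNat)) = 0 := by
    convert h
  rw [h2, map_zero] at h1
  exact lt_irrefl _ h1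

end Pool.Agent.H68.TF
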